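import Pool.Agent.V11322.ZF.Box

/-!
# MP_130685_nt: Zilber-Pink in `Y(1)^n` with `m + 2` places, for subvarieties of any dimension `m`
given by equations; transcendental families and almost all scalings

`Y(1)^n` is identified with `ℂ^n` by the elliptic modular function `jj = j = E₄³ / Δ`.

**Setting.** Let `V ⊂ Y(1)^n` be a subvariety of dimension `m`, or more generally (see below) the
image of a subvariety of a space finite over `Y(1)^n`. Any `m + 1` of the coordinates satisfy an
equation on `V`. We suppose that for all sets `J` of `m + 1` coordinates such an equation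
`G_J (u_j, j ∈ J) = 0` is given, and let `d_J` be bounds for its degrees. The `2^(m + 1)` *corner
coefficients* of `G_J` are the coefficients of the monomials `∏_{j ∈ I} u_j^(d_j)`, `I ⊆ J`. They
are not zero if and only if the hypersurface in `(P^1)^J` given by the equation (made homogeneous
with the degrees `d_j`) does not contain a point all of whose coordinates are `0` or `∞`; this is
the case for all `V` after general translations of the coordinates and inversions.

The equations are for `u_j = c_j s_j`, where the `c_j` are constants (scalings) and `s_j` is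
a function integral over `Λ[x_j]`, `R_j (s_j, x_j) = 0` with `R_j` monic in the first variable. The
case `R_j = S - J`, `s_j = x_j`, is that of a subvariety of `Y(1)^n` and its scalings; with
`R_j = S - P_j (J)` one obtains the preimages of subvarieties of affine space under the maps
`(P_1 (x_1), …, P_n (x_n))`, and with modular functions `s_j` of higher level the images of
subvarieties of products of modular curves of any level. The set `given` consists of all points `x`
of `Y(1)^n` over which there are numbers `s_j` satisfying the equations.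

**1. Local criterion.** Suppose that `Λ ⊂ ℂ` is a ring with a countable quotient field, that the
coefficients are in `Λ`, and that there are `m + 2` good places: homomorphisms `red` from `Λ` to
fields (reductions modulo prime ideals) such that the corner coefficients and the non-zero
coefficients of the `R_j` do not reduce to `0`, and `c_j` has the exact order `e_{l j} > 0` at the
`l`-th place, where the `e_{l j}` are independent on polygons: if `U` is a nonempty set of places
and `i_l ≠ j_l` are coordinates for the places `l ∈ U` such that every coordinate occurs an even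
number of times among the `i_l` and the `j_l`, then `∏_{l ∈ U} t_l e_{l i_l} e_{l j_l}` is not a
square for all `1 ≤ t_l ≤ T^4` (`T` is a bound for the degrees of the `R_j`, `T = 1` for
`R_j = S - J`). This is so if the `e_{l j}` are different primes larger than `T^4`.
Then `V` has no atypical subvariety at all: every irreducible closed subset of `V ∩ Z`, `Z` a special
subvariety, has dimension at most `dim Z + m - n`, and the same bound holds for the transcendence
degree of every point of `V ∩ Z` over any countable field `K ⊇ Λ`. The constant coordinates of `Z`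
can be special points or arbitrary numbers integral over `Λ`.

**2. One-parameter families.** Let the `G_J` and the `c_j` have coefficients in `K₀[t]` for a
field `K₀ ⊂ ℂ`, the `R_j` coefficients in `K₀`. If at `m + 2` numbers `t = α_l ∈ K₀` the corner
coefficients are not zero and `c_j` has a zero of the order `e_{l j}`, `e` as above, then
`V_τ` has no atypical subvariety for all transcendental `t = τ` (all `τ ∈ ℂ` not algebraic over `K₀`,
for countable `K₀` all but countably many `τ`).

**3. Almost all scalings.** Let the `G_J` and `R_j` be arbitrary polynomials over a countable field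
`K ⊂ ℂ`, with non-zero corner coefficients. Then there is `D` such that `V_c` has no atypical
subvariety for all vectors `c` of positive integers for which there are `m + 2` primes larger than
`D` whose exponents in the `c_j` are positive and independent on polygons; this holds for almost all
members of the families `c_j = ∏_{l < m + 2} (k + l)^(a l j)`, with exponents `a` as above: the
number of exceptions `k ≤ H` is at most a power of `log H`. Here the constant coordinates of `Z` can
be special points or integral over the ring generated by a given finite set `Γ ⊂ K`.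

In the starting file `CornerCriterion` all this is proved with `n (n - 1) / 2 + 1` places (zeros,
primes) instead of `m + 2`. The number of places now does not depend on the number `n` of
coordinates: three places are sufficient for curves.
-/

namespace Pool.Agent.Results.MP_130685_nt.FewPlaces

open H294ZP UpperHalfPlane MvPolynomial Pool.Agent.W282.ZP

/-- A special subvariety of `Y(1)^n = ℂ^n` of dimension `r` (with more constants allowed): a map
`cls` from the coordinates onto `r` classes (`none` for constant coordinates), an integral matrix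
of positive determinant for every coordinate, and a constant for every coordinate, which is a
special point or integral over `Λ`. -/
structure SpecialVariety {Λ : Type} [CommRing Λ] (f : Λ →+* ℂ) (n r : ℕ) where
  cls : Fin n → Option (Fin r)
  surj : ∀ l : Fin r, ∃ i, cls i = some l
  mat : Fin n → Matrix (Fin 2) (Fin 2) ℤ
  det_pos : ∀ i, 0 < (mat i).det
  const : Fin n → ℂ
  allowed : ∀ i, (∃ τ : ℍ, IsCM τ ∧ const i = jj τ) ∨ f.IsIntegralElem (const i)

/-- The points of the special subvariety: the constant coordinates are the given constants, and the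
coordinates of class `l` are `j (g_i z_l)`, with a free parameter `z_l` in the upper half plane. -/
def SpecialVariety.locus {Λ : Type} [CommRing Λ] {f : Λ →+* ℂ} {n r : ℕ}
    (Z : SpecialVariety f n r) : Set (Fin n → ℂ) :=
  {x | ∃ z : Fin r → ℍ, ∀ i, (Z.cls i = none → x i = Z.const i) ∧
    ∀ l, Z.cls i = some l → ∃ w : ℍ,
      (w : ℂ) * (Z.mat i 1 0 * z l + Z.mat i 1 1) = Z.mat i 0 0 * z l + Z.mat i 0 1 ∧
      x i = jj w}

/-- `X` has no intersection of dimension larger than `r + m - n` with special subvarieties `Z` of
dimension `r`: every irreducible closed subset `A` of `X ∩ Z` has dimension at most `r + m - n`, and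
every point of `X ∩ Z` has transcendence degree at most `r + m - n` over `K`. -/
def NoAtypical {Λ : Type} [CommRing Λ] (f : Λ →+* ℂ) (K : Subfield ℂ) {n : ℕ} (m : ℕ)
    (X : Set (Fin n → ℂ)) : Prop :=
  ∀ (r : ℕ) (Z : SpecialVariety f n r),
    (∀ A ⊆ X ∩ Z.locus, zcl A ⊆ A → (idealOf A).IsPrime →
      zdim A + (n : Cardinal) ≤ (r : Cardinal) + (m : Cardinal)) ∧
    ∀ x ∈ X ∩ Z.locus, ∀ S : Finset (Fin n), AlgebraicIndependent K (fun i : S => x i) →
      S.card + n ≤ r + m

/-- The value at `(s, x)` of a polynomial `R = ∑ r_u (J) S^u` in two variables `S` and `J`. -/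
noncomputable def valueAt {Λ : Type} [CommRing Λ] (f : Λ →+* ℂ) (R : Polynomial (Polynomial Λ))
    (s x : ℂ) : ℂ :=
  Polynomial.eval₂ (Polynomial.eval₂RingHom f x) s R

/-- The points of `Y(1)^n` over which there are values `s_j` with `R_j (s_j, x_j) = 0` which
satisfy the equations `G_J (c_j s_j, j ∈ J) = 0` for all sets `J` of `m + 1` coordinates. -/
def given {Λ : Type} [CommRing Λ] (f : Λ →+* ℂ) {n : ℕ} (m : ℕ)
    (R : Fin n → Polynomial (Polynomial Λ))
    (G : ∀ J : Finset (Fin n), MvPolynomial J Λ) (c : Fin n → Λ) : Set (Fin n → ℂ) :=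
  {x | ∃ s : Fin n → ℂ, (∀ i, valueAt f (R i) (s i) (x i) = 0) ∧
    ∀ J : Finset (Fin n), J.card = m + 1 → eval₂ f (fun j : J => f (c j) * s j) (G J) = 0}

/-- The exponents of a corner monomial `∏_{j ∈ I} u_j^(d_j)`. -/
noncomputable def corner {σ : Type} [Fintype σ] [DecidableEq σ] (d : σ → ℕ) (I : Finset σ) :
    σ →₀ ℕ :=
  Finsupp.equivFunOnFinite.symm fun j => if j ∈ I then d j else 0

/-- The numbers `d J` bound the degrees of the equations `G J` for the sets `J` of `m + 1`
coordinates. -/
def DegreeBounds {Λ : Type} [CommRing Λ] {n : ℕ} (m : ℕ)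
    (G : ∀ J : Finset (Fin n), MvPolynomial J Λ) (d : ∀ J : Finset (Fin n), J → ℕ) : Prop :=
  ∀ J : Finset (Fin n), J.card = m + 1 → ∀ u ∈ (G J).support, ∀ j, u j ≤ d J j

/-- The corner coefficients do not vanish under `red`. -/
def CornersNe {Λ F : Type} [CommRing Λ] [Field F] (red : Λ →+* F) {n : ℕ} (m : ℕ)
    (G : ∀ J : Finset (Fin n), MvPolynomial J Λ) (d : ∀ J : Finset (Fin n), J → ℕ) : Prop :=
  ∀ J : Finset (Fin n), J.card = m + 1 → ∀ I : Finset J,
    red ((G J).coeff (corner (d J) I)) ≠ 0

/-- The exponents are positive and independent on polygons: if `U` is a nonempty set of places and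
`i l ≠ j l` are coordinates for the places `l` in `U`, such that every coordinate `v` occurs an even
number of times among them, then the product of the `t l * e l (i l) * e l (j l)` over `U` is not a
square, for all `1 ≤ t l ≤ T ^ 4`. -/
def IndependentExponents {n L : ℕ} (T : ℕ) (e : Fin L → Fin n → ℕ) : Prop :=
  (∀ l i, 0 < e l i) ∧
  ∀ U : Finset (Fin L), U.Nonempty → ∀ (i j : Fin L → Fin n) (t : Fin L → ℕ),
    (∀ l ∈ U, i l ≠ j l ∧ 0 < t l ∧ t l ≤ T ^ 4) →
    (∀ v, Even ((U.filter fun l => i l = v).card + (U.filter fun l => j l = v).card)) →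
    ¬ IsSquare (∏ l ∈ U, t l * (e l (i l) * e l (j l)))

/-- A good place: a homomorphism `red` to a field under which the corner coefficients and the
non-zero coefficients of the `R i` do not vanish, such that `c i` has the exact order `e i` at the
place, `a (c i) = b ϖ ^ (e i)` with `red ϖ = 0` and `a`, `b` invertible at the place. -/
structure GoodPlace {Λ : Type} [CommRing Λ] {n : ℕ} (m : ℕ)
    (R : Fin n → Polynomial (Polynomial Λ))
    (G : ∀ J : Finset (Fin n), MvPolynomial J Λ) (d : ∀ J : Finset (Fin n), J → ℕ)
    (c : Fin n → Λ) (e : Fin n → ℕ) where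
  F : Type
  [field : Field F]
  red : Λ →+* F
  corners : CornersNe red m G d
  coeff_ne : ∀ i u w, ((R i).coeff u).coeff w ≠ 0 → red (((R i).coeff u).coeff w) ≠ 0
  ϖ : Λ
  red_ϖ : red ϖ = 0
  order : ∀ i, ∃ a b : Λ, red a ≠ 0 ∧ red b ≠ 0 ∧ a * c i = b * ϖ ^ e i

/-- The exponents of `m + 2` primes `p l > D` in the `c i` are positive and independent on
polygons. -/
def Spread {n : ℕ} (m T D : ℕ) (c : Fin n → ℕ) : Prop :=
  ∃ p : Fin (m + 2) → ℕ, (∀ l, (p l).Prime ∧ D < p l) ∧
    IndependentExponents T fun l i => (c i).factorization (p l)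

/-- From points to irreducible closed subsets. -/
theorem noAtypical_of {Λ : Type} [CommRing Λ] (f : Λ →+* ℂ) (K : Subfield ℂ) [Countable K] {n m : ℕ}
    (X : Set (Fin n → ℂ)) (h : ∀ (r : ℕ) (Z : SpecialVariety f n r), ∀ x ∈ X, ∀ z : Fin r → ℍ,
      (∀ i, (Z.cls i = none → x i = Z.const i) ∧ ∀ l, Z.cls i = some l → ∃ w : ℍ,
        (w : ℂ) * (Z.mat i 1 0 * z l + Z.mat i 1 1) = Z.mat i 0 0 * z l + Z.mat i 0 1 ∧
        x i = jj w) → ∀ S : Finset (Fin n), AlgebraicIndependent K (fun i : S => x i) →
        (∀ i, 0 < (Z.mat i).det.toNat) →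
        (∀ i j l, Z.cls i = some l → Z.cls j = some l →
          IsIntegral (Algebra.adjoin ℤ {x i}) (x j) ∧
          Polynomial.eval₂ (Polynomial.aeval (x i) : Polynomial ℂ →ₐ[ℂ] ℂ).toRingHom (x j)
            (Psi ((Z.mat i).det.toNat * (Z.mat j).det.toNat)) = 0) → S.card + n ≤ r + m) :
    NoAtypical f K m X := by
  intro r Z
  have hN : ∀ i, 0 < (Z.mat i).det.toNat := by
    intro i
    have := Z.det_pos i
    omega
  have hpt : ∀ x ∈ X ∩ Z.locus, ∀ S : Finset (Fin n),
      AlgebraicIndependent K (fun i : S => x i) → S.card + n ≤ r + m := by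
    rintro x ⟨hx, z, hz⟩ S hS
    refine h r Z x hx z hz S hS hN ?_
    intro i j l hi hj
    obtain ⟨w, hw, hxw⟩ := (hz i).2 l hi
    obtain ⟨w', hw', hxw'⟩ := (hz j).2 l hj
    refine ⟨?_, ?_⟩
    · obtain ⟨a, b, c, d, e1, e2⟩ := isogeny_rel (Z.det_pos i) hw hw'
      rw [hxw, hxw']
      exact isogenous_integral w w' a b c d (by
        rw [e1]
        exact mul_pos (Z.det_pos i) (Z.det_pos j)) e2
    · rw [← Int.toNat_mul (Z.det_pos i).le (Z.det_pos j).le, ← eval_relPoly]
      exact eval_relPoly_eq_zero (Z.det_pos i) (Z.det_pos j) hw hw' hxw hxw'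
  refine ⟨?_, hpt⟩
  intro W hW hcl hprime
  obtain ⟨x, hxW, T, hT, hdim⟩ := Pool.Agent.W466.ZC.generic_dim K W hprime hcl
  have h2 := hpt x (hW hxW) T hT
  calc zdim W + (n : Cardinal) ≤ (T.card : Cardinal) + (n : Cardinal) := by gcongr
    _ = ((T.card + n : ℕ) : Cardinal) := by push_cast; rfl
    _ ≤ ((r + m : ℕ) : Cardinal) := by exact_mod_cast h2
    _ = (r : Cardinal) + (m : Cardinal) := by push_cast; rfl

theorem main {Λ : Type} [CommRing Λ] (f : Λ →+* ℂ) (hf : Function.Injective f) (K : Subfield ℂ)
    [Countable K] (hK : ∀ a, f a ∈ K) {n m T : ℕ}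
    (R : Fin n → Polynomial (Polynomial Λ)) (hR : ∀ i, (R i).Monic)
    (hT : ∀ i u w, ((R i).coeff u).coeff w ≠ 0 → u ≤ T ∧ w ≤ T)
    (G : ∀ J : Finset (Fin n), MvPolynomial J Λ) (d : ∀ J : Finset (Fin n), J → ℕ)
    (hd : DegreeBounds m G d) (c : Fin n → Λ) (e : Fin (m + 2) → Fin n → ℕ)
    (he : IndependentExponents T e) (P : ∀ l, GoodPlace m R G d c (e l)) :
    NoAtypical f K m (given f m R G c) := by
  classical
  have hdom : IsDomain Λ := hf.isDomain f
  let _ : Algebra Λ ℂ := f.toAlgebra
  let fK : Λ →+* K := f.codRestrict K hK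
  let _ : Algebra Λ K := fK.toAlgebra
  have hst : IsScalarTower Λ K ℂ := IsScalarTower.of_algebraMap_eq fun _ => rfl
  have hfK : Function.Injective (algebraMap Λ K) := fun a b h => hf (congrArg Subtype.val h)
  let inst : ∀ l, Field (P l).F := fun l => (P l).field
  refine noAtypical_of f K _ ?_
  rintro r Z x ⟨s, hs, hG⟩ z hz S hS hN hrel
  refine V11322.ZF.criterionBoxF (m := m) R hR hT c (fun l => RingHom.ker (P l).red)
    (fun l => RingHom.ker_isPrime (P l).red) G d hd (fun l J hJ I => (P l).corners J hJ I)
    (fun l i u w h0 => (P l).coeff_ne i u w h0) (fun l => (P l).ϖ) (fun l => (P l).red_ϖ) e he.1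
    (fun l i => (P l).order i) he.2 Z.cls
    (fun i => (Z.mat i).det.toNat) x s hN ?_ hrel hs hG S
    (hS.restrictScalars hfK)
  intro i hi
  rw [(hz i).1 hi]
  rcases Z.allowed i with ⟨τ, hτ, hc⟩ | h
  · rw [hc]
    exact (singular_modulus_integral τ hτ).tower_top
  · exact h

/-- the value of a polynomial at a complex number -/
noncomputable def evalAt (K₀ : Subfield ℂ) (z : ℂ) : Polynomial K₀ →+* ℂ :=
  (Polynomial.aeval z : Polynomial K₀ →ₐ[K₀] ℂ).toRingHom

/-- The first three parts are the local criterion, the transcendental members of one-parameter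
families, and almost all scalings of a subvariety; the last part gives examples of independent
exponents. -/
theorem result :
    (∀ (Λ : Type) [CommRing Λ] (f : Λ →+* ℂ), Function.Injective f →
      ∀ (K : Subfield ℂ) [Countable K], (∀ a, f a ∈ K) → ∀ (n m T : ℕ)
      (R : Fin n → Polynomial (Polynomial Λ)), (∀ i, (R i).Monic) →
      (∀ i u w, ((R i).coeff u).coeff w ≠ 0 → u ≤ T ∧ w ≤ T) →
      ∀ (G : ∀ J : Finset (Fin n), MvPolynomial J Λ) (d : ∀ J : Finset (Fin n), J → ℕ),
      DegreeBounds m G d → ∀ (c : Fin n → Λ) (e : Fin (m + 2) → Fin n → ℕ),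
      IndependentExponents T e → (∀ l, Nonempty (GoodPlace m R G d c (e l))) →
      NoAtypical f K m (given f m R G c)) ∧
    (∀ (K₀ : Subfield ℂ) (n m T : ℕ) (R : Fin n → Polynomial (Polynomial K₀)),
      (∀ i, (R i).Monic) → (∀ i u w, ((R i).coeff u).coeff w ≠ 0 → u ≤ T ∧ w ≤ T) →
      ∀ (G : ∀ J : Finset (Fin n), MvPolynomial J (Polynomial K₀))
      (d : ∀ J : Finset (Fin n), J → ℕ), DegreeBounds m G d →
      ∀ (c : Fin n → Polynomial K₀) (α : Fin (m + 2) → K₀),
      IndependentExponents T (fun l i => (c i).rootMultiplicity (α l)) →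
      (∀ l, CornersNe (evalAt K₀ (α l)) m G d) →
      ∀ τ : ℂ, Transcendental K₀ τ → ∀ (K : Subfield ℂ) [Countable K], K₀ ≤ K → τ ∈ K →
      NoAtypical (evalAt K₀ τ) K m (given (evalAt K₀ τ) m
        (fun i => (R i).map (Polynomial.mapRingHom Polynomial.C)) G c)) ∧
    (∀ (K : Subfield ℂ) [Countable K] (n m T : ℕ) (R : Fin n → Polynomial (Polynomial K)),
      (∀ i, (R i).Monic) → (∀ i u w, ((R i).coeff u).coeff w ≠ 0 → u ≤ T ∧ w ≤ T) →
      ∀ (G : ∀ J : Finset (Fin n), MvPolynomial J K) (d : ∀ J : Finset (Fin n), J → ℕ),
      DegreeBounds m G d → CornersNe (RingHom.id K) m G d →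
      ∀ Γ : Finset ℂ, (∀ γ ∈ Γ, γ ∈ K) → ∃ D : ℕ,
      (∀ c : Fin n → ℕ, Spread m T D c →
        NoAtypical (algebraMap (Algebra.adjoin ℤ (Γ : Set ℂ)) ℂ) K m
          (given K.subtype m R G fun i => (c i : K))) ∧
      ∀ a : Fin (m + 2) → Fin n → ℕ, IndependentExponents T a → ∀ H : ℕ,
        Set.ncard {k : ℕ | 1 ≤ k ∧ k ≤ H ∧
          ¬ NoAtypical (algebraMap (Algebra.adjoin ℤ (Γ : Set ℂ)) ℂ) K m
            (given K.subtype m R G fun i =>
              ((∏ l : Fin (m + 2), (k + (l : ℕ)) ^ a l i : ℕ) : K))} ≤
          (m + 2) * (Nat.log 2 (H + (m + 2)) + 1) ^ (D + (m + 2) + 1)) ∧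
    ∀ (n L T : ℕ) (e : Fin L → Fin n → ℕ), (∀ l i, (e l i).Prime ∧ T ^ 4 < e l i) →
      (∀ l i l' i', e l i = e l' i' → l = l' ∧ i = i') → IndependentExponents T e := by
  classical
  refine ⟨?_, ?_, ?_, ?_⟩
  · intro Λ _ f hf K _ hK n m T R hR hT G d hd c e he P
    exact main f hf K hK R hR hT G d hd c e he fun l => (P l).some
  · intro K₀ n m T R hR hT G d hd c α he hcor τ hτ K _ hK₀ hτK
    have hf : Function.Injective (evalAt K₀ τ) := transcendental_iff_injective.1 hτ
    refine main (evalAt K₀ τ) hf K ?_ _ (fun i => (hR i).map _) ?_ G d hd c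
      (fun l i => (c i).rootMultiplicity (α l)) he fun l => ?_
    · intro a
      show Polynomial.aeval τ a ∈ K
      rw [Polynomial.aeval_eq_sum_range]
      refine sum_mem fun i _ => ?_
      rw [Algebra.smul_def]
      exact mul_mem (hK₀ (a.coeff i).2) (pow_mem hτK i)
    · intro i u w h0
      rw [Polynomial.coeff_map, Polynomial.coe_mapRingHom, Polynomial.coeff_map] at h0
      exact hT i u w fun h1 => h0 (by rw [h1, map_zero])
    · have hev : ∀ a : K₀, evalAt K₀ (α l) (Polynomial.C a) = (a : ℂ) := by
        intro a
        show Polynomial.aeval _ (Polynomial.C a) = _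
        rw [Polynomial.aeval_C]
        rfl
      have hev2 : ∀ p : Polynomial K₀, evalAt K₀ (α l) p = ((p.eval (α l) : K₀) : ℂ) := by
        intro p
        show Polynomial.aeval (algebraMap K₀ ℂ (α l)) p = _
        rw [Polynomial.aeval_algebraMap_apply]
        rfl
      exact
        { F := ℂ
          red := evalAt K₀ (α l)
          corners := hcor l
          coeff_ne := by
            intro i u w h0
            rw [Polynomial.coeff_map, Polynomial.coe_mapRingHom, Polynomial.coeff_map] at h0 ⊢
            rw [hev]
            intro h1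
            apply h0
            rw [show ((R i).coeff u).coeff w = 0 from Subtype.ext h1, map_zero]
          ϖ := Polynomial.X - Polynomial.C (α l)
          red_ϖ := by
            rw [hev2, Polynomial.eval_sub, Polynomial.eval_X, Polynomial.eval_C, sub_self]
            rfl
          order := by
            intro i
            have hc0 : c i ≠ 0 := by
              intro h0
              have := he.1 l i
              change 0 < (c i).rootMultiplicity (α l) at this
              rw [h0, Polynomial.rootMultiplicity_zero] at this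
              exact lt_irrefl _ this
            obtain ⟨q, hq1, hq2⟩ :=
              Polynomial.exists_eq_pow_rootMultiplicity_mul_and_not_dvd (c i) hc0 (α l)
            refine ⟨1, q, ?_, ?_, ?_⟩
            · rw [map_one]
              exact one_ne_zero
            · rw [hev2]
              intro h1
              apply hq2
              rw [Polynomial.dvd_iff_isRoot, Polynomial.IsRoot.def]
              exact Subtype.ext h1
            · rw [one_mul]
              conv_lhs => rw [hq1]
              ring }
  · intro K _ n m T R hR hT G d hd hcor Γ hΓ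
    obtain ⟨D, hD⟩ := V11322.ZF.boxF K (m := m) R hR hT G d hd hcor Γ hΓ
    have hspr : ∀ c : Fin n → ℕ, Spread m T D c ↔ V11322.ZF.SpreadF (m + 2) T D c :=
      fun c => Iff.rfl
    have h1 : ∀ c : Fin n → ℕ, Spread m T D c →
        NoAtypical (algebraMap (Algebra.adjoin ℤ (Γ : Set ℂ)) ℂ) K m
          (given K.subtype m R G fun i => (c i : K)) := by
      intro c hc
      refine noAtypical_of _ K _ ?_
      rintro r Z x ⟨s, hs, hG⟩ z hz S hS hN hrel
      refine hD c ((hspr c).1 hc) r Z.cls
        (fun i => (Z.mat i).det.toNat) x s hN ?_ hrel hs ?_ S hS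
      · intro i hi
        rw [(hz i).1 hi]
        rcases Z.allowed i with ⟨τ, hτ, hc⟩ | h
        · rw [hc]
          exact (singular_modulus_integral τ hτ).tower_top
        · exact h
      · intro J hJ
        have h2 := hG J hJ
        simp only [map_natCast] at h2
        exact h2
    refine ⟨D, h1, ?_⟩
    intro a ha H
    refine (Set.ncard_le_ncard ?_ ?_).trans
      (V11322.ZF.countF (L := m + 2) (T := T) D a ha.1 ha.2 H)
    · rintro k ⟨hk1, hk2, hk3⟩
      exact ⟨hk1, hk2, fun hs => hk3 (h1 _ ((hspr _).2 hs))⟩
    · exact (Set.finite_Icc 1 H).subset fun k hk => ⟨hk.1, hk.2.1⟩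
  · intro n L T e he hinj
    exact ⟨fun l i => (he l i).1.pos, V11322.ZF.cyc_of_primes e he hinj⟩

end Pool.Agent.Results.MP_130685_nt.FewPlaces
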