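import Pool.Agent.Results.MP_130685_nt.IntegralParameters
import Pool.Agent.V11285.FW

/-!
# No atypical intersections in `Y(1)^n` for ALL members of the families with parameters in windows around `α v_k`

For the families of `IntegralParameters`, where all but `C (log X) ^ a` of the parameters of denominator `v ≤ X` and
numerator at most `X` are good: for all `α > 0` outside a set of Hausdorff dimension `0` and all `θ < 1` ALL integers `t`
with `|t - α b ^ k| ≤ b ^ (θ k)` are good for large `k`; for all `α > 0` outside a set of dimension at most `1 / 2` all but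
finitely many convergents `t` of `α` are good.
-/

set_option autoImplicit false

namespace Pool.Agent.Results.MP_130685_nt.WindowsOfParameters

open H294ZP UpperHalfPlane MvPolynomial
open Pool.Agent.Results.MP_130685_nt.IntegralParameters

/-- the exponent of convergence of the sequence `v` is at most `τ` -/
def ExpLe (v : ℕ → ℝ) (τ : ℝ) : Prop := ∀ t : ℝ, τ < t → Summable (fun k : ℕ => (v k) ^ (-t))

/-- The property `P` of rational numbers has no exceptions in windows and among good approximations, for most `α > 0`: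
(1) for all sequences `v ≥ 1` with exponent of convergence at most `τ`, all denominators `q_k ≤ v_k ^ c` and `θ < 1`, for
all `α > 0` outside a set of Hausdorff dimension at most `τ / (1 - θ)` and all large `k`, ALL `t = u / q_k` in lowest terms
with `|u - α v_k| ≤ v_k ^ θ` have the property (for instance all integers `t` with `|t - α v_k| ≤ v_k ^ θ`);
(2) if `τ = 0`, for instance if `v_k = b ^ k`, one set of dimension `0` serves all `θ < 1`;
(3) for all `α > 0` outside a set of dimension at most `1 / β` all but finitely many rational numbers `t = u / q` with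
`|α - t| ≤ q ^ (-β)` have the property; for `β = 2` these `t` include all convergents of `α`. -/
def AllWindows (P : ℚ → Prop) : Prop :=
  (∀ (v : ℕ → ℝ) (q : ℕ → ℕ) (τ θ c : ℝ), (∀ k, 1 ≤ v k) → 0 ≤ τ → ExpLe v τ → θ < 1 →
    (∀ k, (q k : ℝ) ≤ (v k) ^ c) →
    ∃ E : Set ℝ, dimH E ≤ ENNReal.ofReal (τ / (1 - θ)) ∧ ∀ α : ℝ, 0 < α → α ∉ E →
      ∃ k₀ : ℕ, ∀ k : ℕ, k₀ ≤ k → ∀ t : ℚ, t.den = q k → |(t.num : ℝ) - α * v k| ≤ (v k) ^ θ → P t) ∧
  (∀ (v : ℕ → ℝ) (q : ℕ → ℕ) (c : ℝ), (∀ k, 1 ≤ v k) → ExpLe v 0 → (∀ k, (q k : ℝ) ≤ (v k) ^ c) →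
    ∃ E : Set ℝ, dimH E = 0 ∧ ∀ α : ℝ, 0 < α → α ∉ E → ∀ θ : ℝ, θ < 1 →
      ∃ k₀ : ℕ, ∀ k : ℕ, k₀ ≤ k → ∀ t : ℚ, t.den = q k → |(t.num : ℝ) - α * v k| ≤ (v k) ^ θ → P t) ∧
  (∀ β : ℝ, 1 < β → ∃ E : Set ℝ, dimH E ≤ ENNReal.ofReal (1 / β) ∧ ∀ α : ℝ, 0 < α → α ∉ E →
    {t : ℚ | |α - t| ≤ (t.den : ℝ) ^ (-β) ∧ ¬ P t}.Finite)

/-- from the number of the exceptions in the form of the starting theorem -/
lemma few {P : ℚ → Prop} (h : ∃ C : ℝ, ∃ a : ℕ, ∀ X : ℕ, 2 ≤ X → ∀ v : ℕ, v ≤ X →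
    ({t : ℚ | t.den = v ∧ |t.num| ≤ (X : ℤ) ∧ ¬ P t}.ncard : ℝ) ≤ C * Real.log X ^ a) :
    Pool.Agent.V11285.FW.Few {t | ¬ P t} := by
  obtain ⟨C, a, hC⟩ := h
  refine ⟨⌈C⌉₊, a, fun B v hB hv T hT => ?_⟩
  have hlog : 0 ≤ Real.log B := Real.log_nonneg (by exact_mod_cast (by omega : 1 ≤ B))
  have hfin : {t : ℚ | t.den = v ∧ |t.num| ≤ (B : ℤ) ∧ ¬ P t}.Finite := by
    refine Set.Finite.of_finite_image (f := fun t : ℚ => t.num) ((Set.finite_Icc (-(B : ℤ)) B).subset ?_) ?_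
    · rintro _ ⟨t, ht, rfl⟩
      exact abs_le.1 ht.2.1
    · intro t ht u hu htu
      exact Rat.ext htu (ht.1.trans hu.1.symm)
  have hsub : (T : Set ℚ) ⊆ {t : ℚ | t.den = v ∧ |t.num| ≤ (B : ℤ) ∧ ¬ P t} := fun t ht => hT t ht
  have h1 := Set.ncard_le_ncard hsub hfin
  rw [Set.ncard_coe_finset] at h1
  calc (T.card : ℝ) ≤ ({t : ℚ | t.den = v ∧ |t.num| ≤ (B : ℤ) ∧ ¬ P t}.ncard : ℝ) := by exact_mod_cast h1
    _ ≤ C * Real.log B ^ a := hC B hB v hv
    _ ≤ (⌈C⌉₊ : ℝ) * Real.log B ^ a := mul_le_mul_of_nonneg_right (Nat.le_ceil C) (pow_nonneg hlog a)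

/-- **No atypical intersections for all parameters in windows.** For the one-parameter families `X_t` of algebraic
subsets of `Y(1)^n` (`scaledImage`) which degenerate at the roots of sufficiently many integral polynomials `P_l`:
(1) if `M ≥ n (n - 1) / 2 + 1` the property '`X_t` has no atypical intersection with special subvarieties' and
(2) if `m = 1`, `M ≥ 4` the property '`X_t` has no point on special subvarieties of codimension at least two' have no
exceptions in windows and among good approximations, for most `α` (`AllWindows`). -/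
theorem result :
    (∀ (K : Subfield ℂ) [Countable K] (κ : Type) [Finite κ] (N n m M T : ℕ)
      (G : κ → MvPolynomial (Fin (N + 1)) (Polynomial K)) (_ : ∀ k, ∃ e, (G k).IsHomogeneous e)
      (A B : Fin n → MvPolynomial (Fin (N + 1)) (Polynomial K)) (δ : Fin n → ℕ)
      (_ : ∀ i, (A i).IsHomogeneous (δ i)) (_ : ∀ i, (B i).IsHomogeneous (δ i))
      (R : Fin n → Polynomial (Polynomial K)) (_ : ∀ i, (R i).Monic)
      (_ : ∀ i u w, ((R i).coeff u).coeff w ≠ 0 → u ≤ T ∧ w ≤ T)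
      (c : Fin n → Polynomial K) (P : Fin M → Polynomial ℤ) (_ : ∀ l, 0 < (P l).natDegree)
      (_ : IndependentOrders T c P)
      (_ : ∀ l, ∀ α : ℂ, Polynomial.aeval α (P l) = 0 → InGeneralPosition α m G A B)
      (Γ : Finset ℂ) (_ : ∀ γ ∈ Γ, γ ∈ K),
      (n.choose 2 + 1 ≤ M → AllWindows fun t : ℚ =>
        NoAtypical (algebraMap (Algebra.adjoin ℤ (Γ : Set ℂ)) ℂ) K m (scaledImage (t : ℂ) G A B R c)) ∧
      (m = 1 → 4 ≤ M → AllWindows fun t : ℚ => ∀ (r : ℕ)
        (Z : SpecialVariety (algebraMap (Algebra.adjoin ℤ (Γ : Set ℂ)) ℂ) n r),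
        r + 2 ≤ n → scaledImage (t : ℂ) G A B R c ∩ Z.locus = ∅)) ∧
    (∀ a : ℝ, 0 < a → ExpLe (fun k : ℕ => ((k : ℝ) + 1) ^ a) (1 / a)) ∧
    (∀ b : ℝ, 1 < b → ExpLe (fun k : ℕ => b ^ k) 0) := by
  refine ⟨fun K _ κ _ N n m M T G hG A B δ hA hB R hR hT c P hP hind hpos Γ hΓ => ?_,
    fun a ha => Pool.Agent.Y854.GM.expLe_pow a ha, fun b hb => Pool.Agent.Y854.GM.expLe_geom b hb⟩
  obtain ⟨h1, h2⟩ := IntegralParameters.result K κ N n m M T G hG A B δ hA hB R hR hT c P hP hind hpos Γ hΓ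
  refine ⟨fun hM => Pool.Agent.V11285.FW.allWindows (few (h1 hM)), fun hm hM => ?_⟩
  refine Pool.Agent.V11285.FW.allWindows (few ?_)
  obtain ⟨C, a, hC⟩ := h2 hm hM
  refine ⟨C, a, fun X hX v hv => ?_⟩
  have e : {t : ℚ | t.den = v ∧ |t.num| ≤ (X : ℤ) ∧ ¬ ∀ (r : ℕ)
      (Z : SpecialVariety (algebraMap (Algebra.adjoin ℤ (Γ : Set ℂ)) ℂ) n r),
      r + 2 ≤ n → scaledImage (t : ℂ) G A B R c ∩ Z.locus = ∅} =
      {t : ℚ | t.den = v ∧ |t.num| ≤ (X : ℤ) ∧ ∃ (r : ℕ)
        (Z : SpecialVariety (algebraMap (Algebra.adjoin ℤ (Γ : Set ℂ)) ℂ) n r),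
        r + 2 ≤ n ∧ (scaledImage (t : ℂ) G A B R c ∩ Z.locus).Nonempty} := by
    ext t
    simp only [Set.mem_ofPred_eq, not_forall, Set.nonempty_iff_ne_empty, exists_prop]
  rw [e]
  exact hC X hX v hv

end Pool.Agent.Results.MP_130685_nt.WindowsOfParameters
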